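import Pool.Agent.H40.Main
import Pool.Agent.H77.PI.Multi

/-!
# MP_ecbc69_al: the elementary subgroup is normal over every PI ring

For every ring `R` (associative, with 1, in any universe) which satisfies a polynomial identity in the
sense of the problem (a noncommutative polynomial with integer coefficients, with coefficient `1` at a
monomial of maximal degree, vanishes on `R`) and every `n ≥ 3`, the elementary subgroup `E_n(R)` is
normal in `GL_n(R)`.

The identity is multilinearised (`Pool.Agent.H77.PI.multilinear_of_identity`), and the ring is replaced by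
the subring generated by the entries of `g`, `g⁻¹` and `r`, which is PI again; for it the normality is
`H40.main`.
-/

set_option autoImplicit false

open Matrix

namespace Pool.Agent.Results.MP_ecbc69_al.PolynomialIdentityRings

universe u

/-- `R` is a PI ring: some noncommutative polynomial `f` in `m` variables with integer coefficients,
with coefficient `1` at a monomial (word) `w` of maximal degree (length) among the monomials of `f`,
vanishes at all `x₁, …, x_m ∈ R`. -/
def IsPIRing (R : Type u) [Ring R] : Prop :=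
  ∃ (m : ℕ) (f : MonoidAlgebra ℤ (FreeMonoid (Fin m))) (w : FreeMonoid (Fin m)),
    f.coeff w = 1 ∧ (∀ v, f.coeff v ≠ 0 → v.length ≤ w.length) ∧
      ∀ x : Fin m → R,
        MonoidAlgebra.lift ℤ R (FreeMonoid (Fin m)) (FreeMonoid.lift x) f = 0

/-- The elementary subgroup `E_n(R)` of `GL_n(R)`, generated by the transvections `1 + r E_ij`,
`i ≠ j`. -/
def elementarySubgroup (n : ℕ) (R : Type u) [Ring R] : Subgroup (Matrix (Fin n) (Fin n) R)ˣ :=
  Subgroup.closure {g | ∃ i j : Fin n, i ≠ j ∧ ∃ r : R,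
    (g : Matrix (Fin n) (Fin n) R) = 1 + Matrix.single i j r}

private theorem goodPI_of_injective {R : Type u} [Ring R] {Q : Type} [Ring Q] (ψ : Q →+* R)
    (hψ : Function.Injective ψ) {d : ℕ} (hd : 0 < d) {c : Equiv.Perm (Fin d) → ℤ} (hc : c 1 = 1)
    (h : ∀ y : Fin d → R, ∑ σ : Equiv.Perm (Fin d), ((c σ : ℤ) : R) *
      (List.ofFn (fun i => y (σ i))).prod = 0) : H40.GoodPI Q := by
  refine ⟨d, hd, c, hc, fun x => hψ ?_⟩
  rw [map_zero, map_sum, ← h (fun i => ψ (x i))]
  refine Finset.sum_congr rfl fun σ _ => ?_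
  rw [map_mul, map_intCast, map_list_prod, List.map_ofFn]
  rfl

private theorem conj_mem {R : Type u} [Ring R] {d : ℕ} (hd : 0 < d) {c : Equiv.Perm (Fin d) → ℤ}
    (hc : c 1 = 1) (h : ∀ y : Fin d → R, ∑ σ : Equiv.Perm (Fin d), ((c σ : ℤ) : R) *
      (List.ofFn (fun i => y (σ i))).prod = 0) {n : ℕ} (hn : 3 ≤ n)
    (g e : (Matrix (Fin n) (Fin n) R)ˣ) {i j : Fin n} (hij : i ≠ j) {r : R}
    (he : (e : Matrix (Fin n) (Fin n) R) = 1 + Matrix.single i j r) :
    g * e * g⁻¹ ∈ elementarySubgroup n R := by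
  let ι : Type := (Fin n × Fin n) ⊕ (Fin n × Fin n) ⊕ Unit
  let φ : ι → R := Sum.elim (fun p => (g : Matrix (Fin n) (Fin n) R) p.1 p.2)
    (Sum.elim (fun p => ((g⁻¹ : (Matrix (Fin n) (Fin n) R)ˣ) : Matrix (Fin n) (Fin n) R) p.1 p.2)
      (fun _ => r))
  let F : FreeAlgebra ℤ ι →+* R := (FreeAlgebra.lift ℤ φ).toRingHom
  let ψ : (FreeAlgebra ℤ ι ⧸ RingHom.ker F) →+* R := RingHom.kerLift F
  have hψ : Function.Injective ψ := RingHom.kerLift_injective F
  let q : ι → FreeAlgebra ℤ ι ⧸ RingHom.ker F := fun x =>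
    Ideal.Quotient.mk (RingHom.ker F) (FreeAlgebra.ι ℤ x)
  have hq : ∀ x, ψ (q x) = φ x := by
    intro x
    show RingHom.kerLift F (Ideal.Quotient.mk (RingHom.ker F) (FreeAlgebra.ι ℤ x)) = φ x
    rw [RingHom.kerLift_mk]
    exact FreeAlgebra.lift_ι_apply φ x
  let G : Matrix (Fin n) (Fin n) (FreeAlgebra ℤ ι ⧸ RingHom.ker F) :=
    Matrix.of fun a b => q (Sum.inl (a, b))
  let G' : Matrix (Fin n) (Fin n) (FreeAlgebra ℤ ι ⧸ RingHom.ker F) :=
    Matrix.of fun a b => q (Sum.inr (Sum.inl (a, b)))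
  let ρ : FreeAlgebra ℤ ι ⧸ RingHom.ker F := q (Sum.inr (Sum.inr ()))
  have hG : ψ.mapMatrix G = (g : Matrix (Fin n) (Fin n) R) := by
    ext a b
    exact hq _
  have hG' : ψ.mapMatrix G' =
      ((g⁻¹ : (Matrix (Fin n) (Fin n) R)ˣ) : Matrix (Fin n) (Fin n) R) := by
    ext a b
    exact hq _
  have hinj : Function.Injective (ψ.mapMatrix :
      Matrix (Fin n) (Fin n) (FreeAlgebra ℤ ι ⧸ RingHom.ker F) →+* Matrix (Fin n) (Fin n) R) := by
    intro A B hAB
    ext a b
    apply hψ
    exact congrFun (congrFun hAB a) b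
  have hGG : G * G' = 1 := by
    apply hinj
    rw [map_mul, map_one, hG, hG']
    exact Units.mul_inv g
  have hGG' : G' * G = 1 := by
    apply hinj
    rw [map_mul, map_one, hG, hG']
    exact Units.inv_mul g
  let Gu : (Matrix (Fin n) (Fin n) (FreeAlgebra ℤ ι ⧸ RingHom.ker F))ˣ := ⟨G, G', hGG, hGG'⟩
  have hEE : (Matrix.single i j ρ * Matrix.single i j ρ :
      Matrix (Fin n) (Fin n) (FreeAlgebra ℤ ι ⧸ RingHom.ker F)) = 0 :=
    Matrix.single_mul_single_of_ne ρ i j i hij.symm ρ
  have hE1 : (1 + Matrix.single i j ρ : Matrix (Fin n) (Fin n) (FreeAlgebra ℤ ι ⧸ RingHom.ker F)) *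
      (1 - Matrix.single i j ρ) = 1 := by
    rw [mul_sub, mul_one, add_mul, one_mul, hEE]
    abel
  have hE2 : (1 - Matrix.single i j ρ : Matrix (Fin n) (Fin n) (FreeAlgebra ℤ ι ⧸ RingHom.ker F)) *
      (1 + Matrix.single i j ρ) = 1 := by
    rw [mul_add, mul_one, sub_mul, one_mul, hEE]
    abel
  let Eu : (Matrix (Fin n) (Fin n) (FreeAlgebra ℤ ι ⧸ RingHom.ker F))ˣ :=
    ⟨1 + Matrix.single i j ρ, 1 - Matrix.single i j ρ, hE1, hE2⟩
  have hEmem : Eu ∈ H40.EA (Fin n) (⊤ : AddSubgroup (FreeAlgebra ℤ ι ⧸ RingHom.ker F)) :=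
    Subgroup.subset_closure ⟨i, j, hij, ρ, AddSubgroup.mem_top _, rfl⟩
  have hnorm := (H40.main (goodPI_of_injective ψ hψ hd hc h) n hn).conj_mem Eu hEmem Gu
  let Ψ : (Matrix (Fin n) (Fin n) (FreeAlgebra ℤ ι ⧸ RingHom.ker F))ˣ →*
      (Matrix (Fin n) (Fin n) R)ˣ := Units.map (RingHom.toMonoidHom (ψ.mapMatrix :
        Matrix (Fin n) (Fin n) (FreeAlgebra ℤ ι ⧸ RingHom.ker F) →+* Matrix (Fin n) (Fin n) R))
  have hle : H40.EA (Fin n) (⊤ : AddSubgroup (FreeAlgebra ℤ ι ⧸ RingHom.ker F)) ≤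
      (elementarySubgroup n R).comap Ψ := by
    unfold H40.EA
    rw [Subgroup.closure_le]
    rintro x ⟨a, b, hab, s, -, hx⟩
    refine Subgroup.subset_closure ⟨a, b, hab, ψ s, ?_⟩
    show ψ.mapMatrix (x : Matrix (Fin n) (Fin n) (FreeAlgebra ℤ ι ⧸ RingHom.ker F)) = _
    rw [hx, map_add, map_one]
    congr 1
    ext k l
    rw [RingHom.mapMatrix_apply, Matrix.map_apply, Matrix.single_apply, Matrix.single_apply]
    split_ifs
    · rfl
    · exact map_zero ψ
  have hfin : Ψ (Gu * Eu * Gu⁻¹) ∈ elementarySubgroup n R := hle hnorm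
  have h1 : Ψ Gu = g := Units.ext hG
  have h2 : Ψ Eu = e := by
    apply Units.ext
    rw [he]
    show ψ.mapMatrix (1 + Matrix.single i j ρ) = _
    rw [map_add, map_one]
    congr 1
    ext k l
    rw [RingHom.mapMatrix_apply, Matrix.map_apply, Matrix.single_apply, Matrix.single_apply]
    split_ifs
    · exact hq _
    · exact map_zero ψ
  rwa [map_mul, map_mul, map_inv, h1, h2] at hfin

/-- **The elementary subgroup is normal over PI rings.** -/
theorem result (R : Type u) [Ring R] (hR : IsPIRing R) (n : ℕ) (hn : 3 ≤ n) :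
    (elementarySubgroup n R).Normal := by
  obtain ⟨m, f, w, hw, hmax, hf⟩ := hR
  obtain ⟨c, hc, h⟩ := Pool.Agent.H77.PI.multilinear_of_identity f w hw hmax hf
  rcases Nat.eq_zero_or_pos w.length with h0 | hd
  · -- the trivial ring
    have h10 : (1 : R) = 0 := by
      have : IsEmpty (Fin w.length) := by
        rw [h0]
        exact Fin.isEmpty
      have h2 := h (fun _ => 0)
      rw [Fintype.sum_eq_single (1 : Equiv.Perm (Fin w.length))
        (fun σ hσ => absurd (Subsingleton.elim σ 1) hσ), hc, Int.cast_one, one_mul] at h2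
      have h3 : (List.ofFn (fun _ : Fin w.length => (0 : R))) = [] := by
        rw [List.ofFn_eq_nil_iff]
        exact h0
      rwa [h3, List.prod_nil] at h2
    have : Subsingleton R := subsingleton_of_zero_eq_one h10.symm
    have hs : Subsingleton (Matrix (Fin n) (Fin n) R)ˣ :=
      ⟨fun a b => Units.ext (Subsingleton.elim _ _)⟩
    exact ⟨fun x hx g => by rwa [Subsingleton.elim (g * x * g⁻¹) x]⟩
  · refine ⟨fun e he g => ?_⟩
    have hle : elementarySubgroup n R ≤
        (elementarySubgroup n R).comap (MulAut.conj g).toMonoidHom := by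
      conv_lhs => unfold elementarySubgroup
      rw [Subgroup.closure_le]
      rintro x ⟨i, j, hij, r, hx⟩
      exact conj_mem hd hc h hn g x hij hx
    exact hle he

end Pool.Agent.Results.MP_ecbc69_al.PolynomialIdentityRings
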